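import Mathlib
import Pool.Agent.R930.MTProd
import Pool.Agent.TH776.FM.RepDefs
import Pool.Agent.Results.MP_021685_ag.ProductsOverNumberFields
import Pool.Agent.Results.MP_7b53ad_ag.ProductsWithVarieties

/-!
# The Mumford-Tate conjecture for the sum of `h ^ 1` of an abelian variety and an arbitrary motive

Let `A` be an abelian variety over a number field `k` (or over a finitely generated field of
characteristic zero), `ℓ` a prime number, `V = V_ℓ(A)` the rational Tate module with the action `ρ` of the
Galois group `Γ`, `χ` the cyclotomic character and `ω` the Weil pairing of a polarization. By theorems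
of Faltings `V` is semisimple, also over finite extensions of `k` (`IsTateModule`), and the
endomorphisms of `V` which commute with a subgroup of finite index of `Γ` come from endomorphisms
of `A`. The Frobenius elements at the places of good reduction away from `ℓ` are dense in `Γ`.

Suppose that `A` is good (`IsGood`): every strongly irreducible subspace `U` of `V`, with coefficients
extended to the algebraic closure of `ℚ_ℓ`, is symplectic (the geometric simple factors of `A` are of
type I or II in the classification of Albert), and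

* for each `U` there is ONE place (which may depend on `U`) at which a slope is simple on `U`, or at
  which an outer slope occurs on `U` if the dimension of `U` is at most four, or at which the reduction
  is semistable of toric rank one on `U` (`GoodPieces`, see
  `Pool/Agent/Results/MP_021685_ag/ProductsOverNumberFields.lean`); or
* the dimensions of the subspaces `U` are four or two modulo four (relative dimension odd or two), and
  the Frobenius elements with two slopes, for instance those at ordinary places, are dense in `Γ`
  (`SymplecticPieces`, see `Pool/Agent/Results/MP_7b53ad_ag/ProductsWithVarieties.lean`).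

Let `M` be ANY motive over `k` (for absolute Hodge cycles, or in the sense of André), with `ℓ`-adic
realization `W` and the action `τ` of `Γ`. Suppose that the Galois action on `W` is potentially abelian
(for instance if `M` is of CM type), or, much more generally, that for every piece `U` every subgroup of
finite index contains an element which acts trivially on `W`, with `χ = 1`, and which acts nontrivially
on `U` (`KernelActs`). This holds if for every `U` there is a place (of residue characteristic different
from `ℓ`) at which `M` has potentially good reduction and at which an inertia group acts on `U` through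
an infinite group; or if the Lie algebras of the images of `Γ` in `GL(V)` and `GL(W)` have no common
nonabelian quotient.

Let `G` be the group of the `ℚ_ℓ`-points of the Mumford-Tate group of `h ^ 1(A) ⊕ M` (or, for motives of
absolute Hodge cycles, of the connected component of the motivic Galois group), with its actions `R` on
`V` and `T` on `W` and the character `ν` through which it acts on the Tate motive. By the theorem of
Faltings the Tate classes of degree two on `A × A` are divisor classes, so that they are fixed by `G`
(hypothesis `hdegree`).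

The Mumford-Tate conjecture for a motive with realization `V` says that the connected component
of the `ℓ`-adic monodromy group is equal to the Mumford-Tate group; it is known to be contained in it.
As both groups are reductive (for the Mumford-Tate group this is known, and `W ⊕ W'` may be taken
for `W`, where `W'` is the dual), the conjecture says that `G` fixes all the tensors which are fixed
by a subgroup of finite index of `Γ`, up to the characters (`FixesTateTensors`: all multilinear forms,
in any number of variables, with any Tate twist `j`).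

The theorem: the Mumford-Tate conjecture for `h ^ 1(A) ⊕ M`, and so for all motives in the tannakian
category generated by `h ^ 1(A)` and `M`, is equivalent to the Mumford-Tate conjecture for `M`. For
instance, it is true for `A × B` for all abelian varieties `B` with complex multiplication (Pohlmann),
and it is true for `A × Z` if it is true for `Z`, where `Z` is any smooth projective variety (a K3
surface, an abelian variety, ...) that satisfies the condition on the places.
-/

namespace Pool.Agent.Results.MP_de8692_ag.SumsWithAnyMotive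

open Module TensorProduct Polynomial Pool.Agent.Y126.Notions Pool.Agent.R930
  Pool.Agent.R930.Notions Pool.Agent.TH776.FM Pool.Agent.H204R3.GP
open Pool.Agent.Results.MP_021685_ag.ProductsOverNumberFields (GoodPieces KernelActs
  PotentiallyAbelian)
open Pool.Agent.Results.MP_7b53ad_ag.ProductsWithVarieties (SymplecticPieces)

noncomputable section

/-- The conditions on the pieces of `V`. -/
def IsGood {ℓ : ℕ} [Fact ℓ.Prime] {V Γ : Type} [AddCommGroup V] [Module ℚ_[ℓ] V]
    [FiniteDimensional ℚ_[ℓ] V] [Group Γ] [TopologicalSpace Γ]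
    (ρ : Representation ℚ_[ℓ] Γ V) (χ : Γ →* ℚ_[ℓ]) : Prop :=
  (Dense {γ | IsFrob ρ χ γ} ∧ GoodPieces (extend (AlgebraicClosure ℚ_[ℓ]) ρ)
    ((algebraMap ℚ_[ℓ] (AlgebraicClosure ℚ_[ℓ]) : ℚ_[ℓ] →* _).comp χ) (IsFrobenius ρ χ)) ∨
  (Dense {γ | IsTwoSlope ρ χ γ} ∧ SymplecticPieces (extend (AlgebraicClosure ℚ_[ℓ]) ρ)
    ((algebraMap ℚ_[ℓ] (AlgebraicClosure ℚ_[ℓ]) : ℚ_[ℓ] →* _).comp χ))

/-- The representation is given, in a basis of the Tate module, by integral matrices which are
continuous functions on the group. -/
def ContinuousIntegral {ℓ : ℕ} [Fact ℓ.Prime] {V Γ : Type} [AddCommGroup V] [Module ℚ_[ℓ] V]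
    [Group Γ] [TopologicalSpace Γ] (ρ : Representation ℚ_[ℓ] Γ V) : Prop :=
  ∃ (d : ℕ) (b : Basis (Fin d) ℚ_[ℓ] V), (∀ g i j, ‖LinearMap.toMatrix b b (ρ g) i j‖ ≤ 1) ∧
    ∀ i j, Continuous fun g => LinearMap.toMatrix b b (ρ g) i j

theorem result (ℓ : ℕ) [Fact ℓ.Prime] {V Γ : Type} [AddCommGroup V] [Module ℚ_[ℓ] V]
    [FiniteDimensional ℚ_[ℓ] V] [Group Γ] [TopologicalSpace Γ] [IsTopologicalGroup Γ]
    (ρ : Representation ℚ_[ℓ] Γ V) (χ : Γ →* ℚ_[ℓ])
    (ω : V →ₗ[ℚ_[ℓ]] V →ₗ[ℚ_[ℓ]] ℚ_[ℓ]) (hA : IsTateModule ρ χ ω)
    (hcontinuous : ContinuousIntegral ρ) (hgood : IsGood ρ χ)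
    {W : Type} [AddCommGroup W] [Module ℚ_[ℓ] W] [FiniteDimensional ℚ_[ℓ] W]
    (τ : Representation ℚ_[ℓ] Γ W)
    (hW : PotentiallyAbelian τ ∨ KernelActs (extend (AlgebraicClosure ℚ_[ℓ]) ρ)
      ((algebraMap ℚ_[ℓ] (AlgebraicClosure ℚ_[ℓ]) : ℚ_[ℓ] →* _).comp χ) τ)
    {G : Type} [Group G] (R : Representation ℚ_[ℓ] G V) (T : Representation ℚ_[ℓ] G W)
    (ν : G →* ℚ_[ℓ])
    (hdegree : ∀ B : V →ₗ[ℚ_[ℓ]] V →ₗ[ℚ_[ℓ]] ℚ_[ℓ], IsTate2 ρ χ B →
      ∀ h u v, B (R h u) (R h v) = ν h * B u v) :
    FixesTateTensors (ρ.prod τ) χ (R.prod T) ν ↔ FixesTateTensors τ χ T ν := by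
  refine ⟨fun H s j ψ hψ h w => ?_, fun hZ => fixes_prod (fun β _ j => ?_) hdegree hZ⟩
  · obtain ⟨Δ, hΔ, hψ⟩ := hψ
    have h1 := H s j (ψ.compLinearMap fun _ => LinearMap.snd ℚ_[ℓ] V W)
      ⟨Δ, hΔ, fun g hg v => hψ g hg fun i => (v i).2⟩ h fun i => (0, w i)
    exact h1
  · obtain ⟨d, b, hintegral, hcontinuous⟩ := hcontinuous
    obtain ⟨halt, hnondeg, hω, hsemisimple⟩ := hA
    have hW' : PotentiallyAbelian (formRep τ χ j β) ∨
        KernelActs (extend (AlgebraicClosure ℚ_[ℓ]) ρ)
        ((algebraMap ℚ_[ℓ] (AlgebraicClosure ℚ_[ℓ]) : ℚ_[ℓ] →* _).comp χ) (formRep τ χ j β) := by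
      rcases hW with ⟨Δ, hΔ, h⟩ | h
      · left
        refine ⟨Δ, hΔ, fun g hg g' hg' => ?_⟩
        refine LinearMap.ext fun ψ => MultilinearMap.ext fun w => ?_
        change χ g ^ j * (χ g' ^ j * ψ (fun i => τ g'⁻¹ (τ g⁻¹ (w i)))) =
          χ g' ^ j * (χ g ^ j * ψ (fun i => τ g⁻¹ (τ g'⁻¹ (w i))))
        have h1 : ∀ w : W, τ g'⁻¹ (τ g⁻¹ w) = τ g⁻¹ (τ g'⁻¹ w) := fun w =>
          congrArg (fun F : Module.End ℚ_[ℓ] W => F w) (h _ (Δ.inv_mem hg') _ (Δ.inv_mem hg))
        simp only [h1]
        ring
      · right
        intro U hU Δ hΔ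
        obtain ⟨g, hg, h1, h2, h3⟩ := h U hU Δ hΔ
        have h4 : χ g = 1 := (algebraMap ℚ_[ℓ] (AlgebraicClosure ℚ_[ℓ])).injective (by
          rw [map_one]; exact h2)
        refine ⟨g, hg, ?_, h2, h3⟩
        refine LinearMap.ext fun ψ => MultilinearMap.ext fun w => ?_
        have h5 : τ g⁻¹ = 1 := by
          have h6 : τ g⁻¹ * τ g = 1 := by rw [← map_mul, inv_mul_cancel, map_one]
          rw [h1, mul_one] at h6
          exact h6
        rw [formRep_apply, h4, h5, one_zpow, one_mul]
        rfl
    rcases hgood with ⟨h1, h2⟩ | ⟨h1, h2⟩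
    · exact Pool.Agent.Results.MP_021685_ag.ProductsOverNumberFields.result ℓ ρ χ ω halt hnondeg hω
        hsemisimple b hintegral hcontinuous h1 h2 (formRep τ χ j β) hW'
    · exact Pool.Agent.Results.MP_7b53ad_ag.ProductsWithVarieties.result ℓ ρ χ ω halt hnondeg hω
        hsemisimple b hintegral hcontinuous h1 h2 (formRep τ χ j β) hW'

end

end Pool.Agent.Results.MP_de8692_ag.SumsWithAnyMotive
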