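import Mathlib
import Pool.Agent.R932.FP.Main

/-!
# The motivic Mumford-Tate conjecture from finitely many Frobenius polynomials at one prime number

Let `M = M_1 ⊕ ... ⊕ M_r` be a motive for absolute Hodge cycles over a field `k` which is finitely generated over
`ℚ`, where `M_i` is pure of the weight `w_i`, of the rank `N_i`, with the nondegenerate form
`J_i : M_i ⊗ M_i → 1(-w_i)` given by a polarization; `J_i` is alternating, or symmetric, and in the second case
we suppose that `w_i = 0` (after a Tate twist) and `N_i ≥ 5`, `N_i ≠ 6`. We choose rational bases of the Betti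
realizations, and so by Artin's comparison isomorphism bases of the `ℓ`-adic realizations for all `ℓ`. The
Mumford-Tate group `G_σ(M)` is given by polynomials with rational coefficients in the entries of the matrices
(`G` below), and we use the following two properties (`IsMumfordTateGroup`):
* the elements `(x_1, ..., x_r)` of `G_σ(M)(ℂ)` multiply the forms `J_i` by `t ^ w_i` for some `t ∈ ℂ^×`,
  and the determinant of `x_i` is one if `J_i` is symmetric (the Mumford-Tate group is connected);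
* for each prime number `ℓ` a subgroup of finite index of the absolute Galois group of `k` maps to
  `G_σ(M)(ℚ_ℓ)` (Hodge cycles are absolute Hodge cycles in this category: `G_σ(M)` is the neutral component of
  the motivic Galois group, by Deligne).
Nothing is assumed on the size of `G_σ(M)`, or on the images of the Galois group. Let `K` be a number field:
`K = k` if `k` is a number field, and the residue field of a closed point of the generic fibre of a model of `M`
in general; `s : G_K → Γ` is the homomorphism given by this point, where `Γ` is the Galois group of `k` or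
the fundamental group of the model. At the places `v` of good reduction of `K` the Frobenius polynomials
`P_{i,v}` of the `M_i` are rational and independent of `ℓ` (Deligne).

**Theorem.** Suppose that at ONE prime number `ℓ₀` (`ℓ₀ ≠ 2` for alternating forms, `ℓ₀` does not divide
`N_i - 1` for odd `N_i`, and `ℓ₀` does not divide `(N_i - 2)(N_i - 4)` and the valuation of `det J_i` is even for
even `N_i` and symmetric `J_i`) finitely many Frobenius polynomials satisfy the following conditions: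
* (`EvenCriterion`, for alternating `J_i`, and for even `N_i`) for every `0 < d < N_i` some `P_{i,v}` is neat
  (distinct roots, no quotient of two different roots is a root of unity) and has no factor of degree `d` over
  `ℚ_{ℓ₀}`, for example one `P_{i,v}` is neat and irreducible over `ℚ_{ℓ₀}`; some `P_{i,v}` is neat and has a
  root in `ℚ_{ℓ₀}`; some `P_{i,v}` is generic: its roots have no multiplicative relations `x w = y z` besides those
  forced by the form;
* (`OddCriterion`, for symmetric `J_i` of odd rank) `P_{i,v} = (X - ε) A` is neat with `ε = ±1` and `A`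
  irreducible over `ℚ_{ℓ₀}`, `P_{i,v'} = (X - η) B`, and `A(1) A(-1) B(1) B(-1)` is not a square in
  `ℚ_{ℓ₀}`; and some `P_{i,v} = (X - 1) A` where `A` has no roots of unity as roots and no roots with
  `x y = z`;
* for different `i`, `j` some `P_{i,v}` has a root which is multiplicatively independent of `N(v)^{w_i}` and of
  the roots of `P_{j,v}`.
Then
(0) the Mumford-Tate group `G_σ(M)` consists of ALL `(x_1, ..., x_r)` as in the first property above;
(1) the motivic Mumford-Tate conjecture for `M` is true at `ℓ₀`;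
(2) it is true at all prime numbers `ℓ` outside a set of natural density zero;
(3) it is true at EVERY prime number `ℓ` at which the realizations of the `M_i` are semisimple and have no
endomorphisms besides the scalars over finite extensions of `k`.

So the Mumford-Tate group and the conjecture for 100 percent of the primes are obtained from finitely many
polynomials and one prime number, without hypotheses on Hodge numbers, on endomorphisms, on the semisimplicity
or on the bad reduction. By Chebotarev's theorem such polynomials can only be found if the group is the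
largest possible one.

Idea of the proof. (A) At `ℓ₀` the factors over `ℚ_{ℓ₀}` exclude stable subspaces over all finite extensions
of `k`, also without semisimplicity; a root in `ℚ_{ℓ₀}` gives an eigenvector which shows that the commutant
consists of scalars; the generic polynomial gives the full Lie algebra. For symmetric forms of odd rank
the Frobenius polynomial is always reducible; two polynomials and an invariant in `ℚ_{ℓ₀}^× / squares` exclude
a stable line and its complement. (B) Equivariant maps between different factors are excluded by the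
independent roots (Goursat, Kolchin, Ribet). (C) Project PO of this run: from the full joint Lie algebra at one
prime number to 100 percent of the prime numbers, and to all prime numbers as in (3). (D) The isometries
near `1` are Zariski dense.

The Zariski density was proved in this run by helper391 and helper310; for the helpers of projects OP and PO
see `FourthPowerSuffices` for MP_6c781a. Projects ZO, ZI, ZS, ZD and TF of the starting files are used.
-/

set_option autoImplicit false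

namespace Pool.Agent.Results.MP_de8692_ag.FrobeniusPolynomialsAtOnePrime

open Matrix Polynomial Filter Topology NumberField IsDedekindDomain

noncomputable section

/-- the absolute Galois group of `K`, with its profinite (Krull) topology -/
abbrev AbsoluteGaloisGroup (K : Type) [Field K] : Type := Gal(AlgebraicClosure K/K)

/-- `σ` is an (arithmetic) Frobenius element at the prime `v` of the number field `K`: for some prime
`Q` of the algebraic closure above `v` it acts on the residue field as `x ↦ x ^ N(v)` -/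
def IsFrobenius {K : Type} [Field K] [NumberField K] (v : HeightOneSpectrum (𝓞 K))
    (σ : AbsoluteGaloisGroup K) : Prop :=
  ∃ Q : Ideal (𝓞 (AlgebraicClosure K)), Q.IsMaximal ∧
    Q.comap (algebraMap (𝓞 K) (𝓞 (AlgebraicClosure K))) = v.asIdeal ∧
    ∀ x : 𝓞 (AlgebraicClosure K), σ • x - x ^ Ideal.absNorm v.asIdeal ∈ Q

/-- the form with the rational matrix `J` is nondegenerate, and either alternating of positive rank (and
the weight `w` is arbitrary) or symmetric of rank `N ≥ 5`, `N ≠ 6` (and `w = 0`) -/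
def IsPolarization {N : ℕ} (w : ℕ) (J : Matrix (Fin N) (Fin N) ℚ) : Prop :=
  J.det ≠ 0 ∧ ((Jᵀ = -J ∧ 0 < N) ∨ (Jᵀ = J ∧ 5 ≤ N ∧ N ≠ 6 ∧ w = 0))

/-- the conditions on the prime number `ℓ₀` -/
def IsAllowed (ℓ : ℕ) {N : ℕ} (J : Matrix (Fin N) (Fin N) ℚ) : Prop :=
  (Jᵀ = -J → ℓ ≠ 2) ∧ (Jᵀ = J → Odd N → ¬ ℓ ∣ N - 1) ∧
    (Jᵀ = J → Even N → ¬ ℓ ∣ (N - 2) * (N - 4) ∧ Even (padicValRat ℓ J.det))

/-- `κ` is the inverse of the cyclotomic character: its value at (the image under `s` of) the geometric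
Frobenius elements `σ⁻¹` (`σ` arithmetic) at the places `v ∉ S` prime to `ℓ` is `N(v)` -/
def IsCyclotomic {K : Type} [Field K] [NumberField K] {Γ : Type} [Group Γ]
    (s : AbsoluteGaloisGroup K →* Γ) (ℓ : ℕ) [Fact ℓ.Prime]
    (κ : Γ →* ℚ_[ℓ]) (S : Set (HeightOneSpectrum (𝓞 K))) : Prop :=
  ∀ v ∉ S, (ℓ : 𝓞 K) ∉ v.asIdeal → ∀ σ : AbsoluteGaloisGroup K, IsFrobenius v σ →
    κ (s σ⁻¹) = (Ideal.absNorm v.asIdeal : ℚ_[ℓ])

/-- `ρ` is a continuous representation on `ℚ_ℓ ^ N`, it multiplies the form `J` by the power `κ ^ w`, and for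
the places `v ∉ S` prime to `ℓ` the characteristic polynomial of (the image under `s` of) the geometric
Frobenius elements at `v` is `P v` -/
def IsSystem {K : Type} [Field K] [NumberField K] {Γ : Type} [Group Γ] [TopologicalSpace Γ]
    (s : AbsoluteGaloisGroup K →* Γ) (N w ℓ : ℕ) [Fact ℓ.Prime] (κ : Γ →* ℚ_[ℓ])
    (ρ : Γ →* Matrix (Fin N) (Fin N) ℚ_[ℓ]) (J : Matrix (Fin N) (Fin N) ℚ)
    (S : Set (HeightOneSpectrum (𝓞 K))) (P : HeightOneSpectrum (𝓞 K) → ℚ[X]) : Prop :=
  Continuous ρ ∧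
    (∀ σ, (ρ σ)ᵀ * J.map (algebraMap ℚ ℚ_[ℓ]) * ρ σ = κ σ ^ w • J.map (algebraMap ℚ ℚ_[ℓ])) ∧
    ∀ v ∉ S, (ℓ : 𝓞 K) ∉ v.asIdeal → ∀ σ : AbsoluteGaloisGroup K, IsFrobenius v σ →
      (ρ (s σ⁻¹)).charpoly = (P v).map (algebraMap ℚ ℚ_[ℓ])

/-! ### The conditions on the Frobenius polynomials -/

/-- `P` has distinct roots, and no quotient of two different complex roots is a root of unity -/
def IsNeat (P : ℚ[X]) : Prop :=
  P.Separable ∧ ∀ n : ℕ, 0 < n → ∀ x y : ℂ, aeval x P = 0 → aeval y P = 0 → x ^ n = y ^ n → x = y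

/-- the polynomial `P` is neat, no root is a square root of `q`, and for roots `x ≠ y`, `z`, `w` an
equality `x / y = z / w` is only possible if `z = x`, `w = y`, or if `z = q / y` and `w = q / x` -/
def IsGeneric (q : ℚ) (P : ℚ[X]) : Prop :=
  IsNeat P ∧ (∀ x : ℂ, aeval x P = 0 → x * x ≠ (q : ℂ)) ∧
    ∀ x y z w : ℂ, aeval x P = 0 → aeval y P = 0 → aeval z P = 0 → aeval w P = 0 → x ≠ y →
      x * w = z * y → (z = x ∧ w = y) ∨ (z * y = (q : ℂ) ∧ w * x = (q : ℂ))

/-- a root of `P` is multiplicatively independent of `q` and of the roots of `R` -/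
def HasIndependentRoot (q : ℚ) (P R : ℚ[X]) : Prop :=
  ∃ x : ℂˣ, aeval (x : ℂ) P = 0 ∧ ∀ m : ℕ, 0 < m →
    x ^ m ∉ Subgroup.closure {y : ℂˣ | aeval (y : ℂ) R = 0 ∨ (y : ℂ) = (q : ℂ)}

variable {K : Type} [Field K] [NumberField K]

/-- The criterion for alternating forms and for symmetric forms of even rank (rank `N`, multiplier `q v`): for
every `0 < d < N` some neat `P v` has no factor of degree `d` over `ℚ_ℓ`; some neat `P v` has a root in `ℚ_ℓ`;
some `P v` is generic. -/
def EvenCriterion (S : Set (HeightOneSpectrum (𝓞 K))) (P : HeightOneSpectrum (𝓞 K) → ℚ[X])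
    (q : HeightOneSpectrum (𝓞 K) → ℚ) (N ℓ : ℕ) [Fact ℓ.Prime] : Prop :=
  (∀ d, 0 < d → d < N → ∃ v ∉ S, (ℓ : 𝓞 K) ∉ v.asIdeal ∧ IsNeat (P v) ∧
    ∀ R : ℚ_[ℓ][X], R.Monic → R.natDegree = d → ¬ R ∣ (P v).map (algebraMap ℚ ℚ_[ℓ])) ∧
  (∃ v ∉ S, (ℓ : 𝓞 K) ∉ v.asIdeal ∧ IsNeat (P v) ∧
    ∃ x : ℚ_[ℓ], ((P v).map (algebraMap ℚ ℚ_[ℓ])).eval x = 0) ∧
  ∃ v ∉ S, (ℓ : 𝓞 K) ∉ v.asIdeal ∧ IsGeneric (q v) (P v)

/-- The criterion for symmetric forms of odd rank: for some `v`, `w` the polynomials `P v = (X - ε) A`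
(`ε = ±1`, neat) and `P w = (X - η) B` are such that `A` is irreducible over `ℚ_ℓ`, `B(1)` and `B(-1)` are not
zero and `A(1) A(-1) B(1) B(-1)` is not a square in `ℚ_ℓ`; and for some `v` the polynomial is
`(X - 1) A` where no root of `A` is a root of unity, and the product of two roots of `A` is never a root. -/
def OddCriterion (S : Set (HeightOneSpectrum (𝓞 K))) (P : HeightOneSpectrum (𝓞 K) → ℚ[X])
    (ℓ : ℕ) [Fact ℓ.Prime] : Prop :=
  (∃ v ∉ S, ∃ w ∉ S, (ℓ : 𝓞 K) ∉ v.asIdeal ∧ (ℓ : 𝓞 K) ∉ w.asIdeal ∧ IsNeat (P v) ∧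
    ∃ (ε η : ℚ) (A B : ℚ[X]), ε * ε = 1 ∧ P v = (X - C ε) * A ∧ P w = (X - C η) * B ∧
      Irreducible (A.map (algebraMap ℚ ℚ_[ℓ])) ∧ B.eval 1 ≠ 0 ∧ B.eval (-1) ≠ 0 ∧
      ¬ IsSquare (algebraMap ℚ ℚ_[ℓ] (A.eval 1 * A.eval (-1) * (B.eval 1 * B.eval (-1))))) ∧
  ∃ v ∉ S, (ℓ : 𝓞 K) ∉ v.asIdeal ∧ ∃ A : ℚ[X], P v = (X - 1) * A ∧
    (∀ x : ℂ, aeval x A = 0 → ∀ n : ℕ, 0 < n → x ^ n ≠ 1) ∧
    ∀ x y z : ℂ, aeval x A = 0 → aeval y A = 0 → aeval z A = 0 → x * y ≠ z

/-- the criterion for one piece, with the form `J` of rank `N` and the weight `w` -/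
def PieceCriterion (S : Set (HeightOneSpectrum (𝓞 K))) (P : HeightOneSpectrum (𝓞 K) → ℚ[X]) {N : ℕ}
    (w : ℕ) (J : Matrix (Fin N) (Fin N) ℚ) (ℓ : ℕ) [Fact ℓ.Prime] : Prop :=
  (Jᵀ = -J ∨ Even N → EvenCriterion S P (fun v => (Ideal.absNorm v.asIdeal : ℚ) ^ w) N ℓ) ∧
    (Jᵀ = J ∧ Odd N → OddCriterion S P ℓ)

/-! ### The groups -/

variable {I : Type} {N : I → ℕ}

/-- polynomials over `R` in the entries of matrices `x i` (`i ∈ I`) of the sizes `N i` -/
abbrev EntryPolynomial (R : Type) [Field R] {I : Type} (N : I → ℕ) : Type :=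
  MvPolynomial (Σ i, Fin (N i) × Fin (N i)) R

/-- the value at matrices with entries in an extension `F` of `R` -/
def value {R F : Type} [Field R] [Field F] [Algebra R F] (f : EntryPolynomial R N)
    (x : ∀ i, Matrix (Fin (N i)) (Fin (N i)) F) : F :=
  MvPolynomial.aeval (fun y : (Σ i, Fin (N i) × Fin (N i)) => x y.1 y.2.1 y.2.2) f

/-- `x` is an `F`-valued point of the algebraic group over `ℚ` given by the rational polynomials in `G` -/
def InGroup {F : Type} [Field F] [Algebra ℚ F] (G : Set (EntryPolynomial ℚ N))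
    (x : ∀ i, Matrix (Fin (N i)) (Fin (N i)) F) : Prop :=
  (∀ i, (x i).det ≠ 0) ∧ ∀ f ∈ G, value f x = 0

/-- `x` multiplies the forms `J i` by `t ^ w i` for some `t`, and the determinant of `x i` is one for
symmetric `J i` -/
def IsSimilitude (w : I → ℕ) (J : ∀ i, Matrix (Fin (N i)) (Fin (N i)) ℚ)
    (x : ∀ i, Matrix (Fin (N i)) (Fin (N i)) ℂ) : Prop :=
  ∃ t : ℂ, t ≠ 0 ∧ ∀ i, (x i)ᵀ * (J i).map (algebraMap ℚ ℂ) * x i =
    t ^ w i • (J i).map (algebraMap ℚ ℂ) ∧ ((J i)ᵀ = J i → (x i).det = 1)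

/-- The properties of the Mumford-Tate group: its complex points are similitudes, and for every `ℓ` it contains the
image of a subgroup of finite index of the Galois group. -/
def IsMumfordTateGroup {Γ : Type} [Group Γ] (w : I → ℕ) (J : ∀ i, Matrix (Fin (N i)) (Fin (N i)) ℚ)
    (ρ : ∀ (i : I) (ℓ : ℕ) [Fact ℓ.Prime], Γ →* Matrix (Fin (N i)) (Fin (N i)) ℚ_[ℓ])
    (G : Set (EntryPolynomial ℚ N)) : Prop :=
  (∀ x : ∀ i, Matrix (Fin (N i)) (Fin (N i)) ℂ, InGroup G x → IsSimilitude w J x) ∧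
  ∀ (ℓ : ℕ) [Fact ℓ.Prime], ∃ Δ : Subgroup Γ, Δ.FiniteIndex ∧ ∀ σ ∈ Δ, InGroup G fun i => ρ i ℓ σ

/-- `x` belongs to the neutral component of the `ℓ`-adic monodromy group: every polynomial in the entries,
with coefficients in the algebraic closure of `ℚ_ℓ`, which vanishes on the image of some subgroup of finite
index, vanishes at `x` -/
def InNeutralComponent {Γ : Type} [Group Γ] {ℓ : ℕ} [Fact ℓ.Prime]
    (ρ : ∀ i, Γ →* Matrix (Fin (N i)) (Fin (N i)) ℚ_[ℓ])
    (x : ∀ i, Matrix (Fin (N i)) (Fin (N i)) (AlgebraicClosure ℚ_[ℓ])) : Prop :=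
  ∀ f : EntryPolynomial (AlgebraicClosure ℚ_[ℓ]) N,
    (∃ Δ : Subgroup Γ, Δ.FiniteIndex ∧ ∀ σ ∈ Δ,
      value f (fun i => (ρ i σ).map (algebraMap ℚ_[ℓ] (AlgebraicClosure ℚ_[ℓ]))) = 0) →
    value f x = 0

/-- the Mumford-Tate conjecture: the neutral component of the `ℓ`-adic monodromy group is the group given
by `G` -/
def MumfordTateConjecture {Γ : Type} [Group Γ] {ℓ : ℕ} [Fact ℓ.Prime]
    (G : Set (EntryPolynomial ℚ N)) (ρ : ∀ i, Γ →* Matrix (Fin (N i)) (Fin (N i)) ℚ_[ℓ]) : Prop :=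
  ∀ x : ∀ i, Matrix (Fin (N i)) (Fin (N i)) (AlgebraicClosure ℚ_[ℓ]), (∀ i, (x i).det ≠ 0) →
    (InNeutralComponent ρ x ↔ InGroup G x)

/-- the representation is semisimple: every stable subspace has a stable complement -/
def IsSemisimple {Γ : Type} [Group Γ] {n : ℕ} {ℓ : ℕ} [Fact ℓ.Prime]
    (ρ : Γ →* Matrix (Fin n) (Fin n) ℚ_[ℓ]) : Prop :=
  ∀ W : Submodule ℚ_[ℓ] (Fin n → ℚ_[ℓ]), (∀ σ, ∀ w ∈ W, ρ σ *ᵥ w ∈ W) →
    ∃ W' : Submodule ℚ_[ℓ] (Fin n → ℚ_[ℓ]), IsCompl W W' ∧ ∀ σ, ∀ w ∈ W', ρ σ *ᵥ w ∈ W'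

/-- over open subgroups the representation has no endomorphisms besides the scalars -/
def HasScalarEndomorphisms {Γ : Type} [Group Γ] [TopologicalSpace Γ] {n : ℕ} {ℓ : ℕ}
    [Fact ℓ.Prime] (ρ : Γ →* Matrix (Fin n) (Fin n) ℚ_[ℓ]) : Prop :=
  ∀ (A : Matrix (Fin n) (Fin n) ℚ_[ℓ]) (U : Subgroup Γ), IsOpen (U : Set Γ) →
    (∀ σ ∈ U, A * ρ σ = ρ σ * A) → ∃ z : ℚ_[ℓ], A = z • (1 : Matrix (Fin n) (Fin n) ℚ_[ℓ])

/-- the set `A` of prime numbers has natural density zero -/
def HasDensityZero (A : Set ℕ) : Prop :=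
  Tendsto (fun n : ℕ => (Nat.card {ℓ : ℕ // ℓ ≤ n ∧ ℓ ∈ A} : ℝ) / (Nat.primeCounting n : ℝ))
    atTop (𝓝 0)

/-- **The motivic Mumford-Tate conjecture for `M = M_1 ⊕ ... ⊕ M_r` from finitely many Frobenius polynomials
at one prime number.** -/
theorem result (K : Type) [Field K] [NumberField K] (Γ : Type) [Group Γ] [TopologicalSpace Γ]
    [IsTopologicalGroup Γ] [CompactSpace Γ] (s : AbsoluteGaloisGroup K →* Γ) (hs : Continuous s)
    (I : Type) [Fintype I] (N w : I → ℕ) (J : ∀ i, Matrix (Fin (N i)) (Fin (N i)) ℚ)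
    (hJ : ∀ i, IsPolarization (w i) (J i))
    (S : Set (HeightOneSpectrum (𝓞 K))) (hS : S.Finite)
    (P : I → HeightOneSpectrum (𝓞 K) → ℚ[X])
    (κ : ∀ (ℓ : ℕ) [Fact ℓ.Prime], Γ →* ℚ_[ℓ])
    (hκ : ∀ (ℓ : ℕ) [Fact ℓ.Prime], IsCyclotomic s ℓ (κ ℓ) S)
    (ρ : ∀ (i : I) (ℓ : ℕ) [Fact ℓ.Prime], Γ →* Matrix (Fin (N i)) (Fin (N i)) ℚ_[ℓ])
    (hρ : ∀ (i : I) (ℓ : ℕ) [Fact ℓ.Prime], IsSystem s (N i) (w i) ℓ (κ ℓ) (ρ i ℓ) (J i) S (P i))
    -- the Mumford-Tate group
    (G : Set (EntryPolynomial ℚ N)) (hG : IsMumfordTateGroup w J ρ G)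
    -- the prime number `ℓ₀`
    (ℓ₀ : ℕ) [Fact ℓ₀.Prime] (hℓ₀ : ∀ i, IsAllowed ℓ₀ (J i))
    (hone : ∀ i, PieceCriterion S (P i) (w i) (J i) ℓ₀)
    (htwo : ∀ i j, i ≠ j → ∃ v ∉ S, (ℓ₀ : 𝓞 K) ∉ v.asIdeal ∧
      HasIndependentRoot ((Ideal.absNorm v.asIdeal : ℚ) ^ w i) (P i v) (P j v)) :
    (∀ x : ∀ i, Matrix (Fin (N i)) (Fin (N i)) ℂ, InGroup G x ↔ IsSimilitude w J x) ∧
    MumfordTateConjecture G (fun i => ρ i ℓ₀) ∧
    HasDensityZero {ℓ | ∃ _ : Fact ℓ.Prime, ¬ MumfordTateConjecture G (fun i => ρ i ℓ)} ∧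
    ∀ (ℓ : ℕ) [Fact ℓ.Prime], (∀ i, IsSemisimple (ρ i ℓ)) →
      (∀ i, HasScalarEndomorphisms (ρ i ℓ)) → MumfordTateConjecture G (fun i => ρ i ℓ) := by
  classical
  -- the kinds of the forms
  have hkd : ∀ i, ∃ kd : R932.PO.Kind, R932.PO.Fits kd (J i) ∧
      R932.PO.Allows kd (N i) ℓ₀ (R932.PO.JL J ℓ₀ i) ∧
      R932.FP.CondK kd S (P i) (fun v => (Ideal.absNorm v.asIdeal : ℚ) ^ w i) (N i) ℓ₀ := by
    intro i
    rcases (hJ i).2 with ⟨h1, h2⟩ | ⟨h1, h2, h3, -⟩
    · exact ⟨.sym, ⟨h1, h2⟩, (hℓ₀ i).1 h1, (hone i).1 (Or.inl h1)⟩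
    · rcases Nat.even_or_odd (N i) with he | ho
      · have h4 := (hℓ₀ i).2.2 h1 he
        refine ⟨.even, ⟨h1, he, ?_⟩, ⟨h4.1, ?_⟩, (hone i).1 (Or.inr he)⟩
        · obtain ⟨m, hm⟩ := he
          omega
        · have h5 : (R932.PO.JL J ℓ₀ i).det = (((J i).det : ℚ) : ℚ_[ℓ₀]) := by
            show ((J i).map (algebraMap ℚ ℚ_[ℓ₀])).det = _
            rw [← eq_ratCast (algebraMap ℚ ℚ_[ℓ₀]), RingHom.map_det]
            rfl
          show Even (Padic.valuation (R932.PO.JL J ℓ₀ i).det)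
          rw [h5, Padic.valuation_ratCast]
          exact h4.2
      · exact ⟨.odd, ⟨h1, ho, h2⟩, (hℓ₀ i).2.1 h1 ho, (hone i).2 ⟨h1, ho⟩⟩
  choose kd hfit hal hcond using hkd
  have hwJ : ∀ i, (J i)ᵀ = J i → w i = 0 := by
    intro i hi
    rcases (hJ i).2 with ⟨h1, h2⟩ | ⟨-, -, -, h3⟩
    · exfalso
      apply (hJ i).1
      have h3 : J i = 0 := by
        have h4 : J i = -J i := hi.symm.trans h1
        ext p q
        have h5 : J i p q = -J i p q := congrFun (congrFun h4 p) q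
        rw [Matrix.zero_apply]
        linarith
      have : Nonempty (Fin (N i)) := ⟨⟨0, h2⟩⟩
      rw [h3]
      exact det_zero
    · exact h3
  have hne : ∀ x : ∀ i, Matrix (Fin (N i)) (Fin (N i)) ℂ, IsSimilitude w J x →
      ∀ i, (x i).det ≠ 0 := by
    rintro x ⟨t, ht, hx⟩ i h0
    have h1 := congrArg Matrix.det (hx i).1
    rw [det_mul, h0, mul_zero, det_smul] at h1
    have h2 : ((J i).map (algebraMap ℚ ℂ)).det ≠ 0 := by
      have h3 : ((J i).map (algebraMap ℚ ℂ)).det = algebraMap ℚ ℂ (J i).det := by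
        rw [RingHom.map_det, RingHom.mapMatrix_apply]
      rw [h3]
      exact (_root_.map_ne_zero _).2 (hJ i).1
    exact mul_ne_zero (pow_ne_zero _ (pow_ne_zero _ ht)) h2 h1.symm
  -- the two forms of the conjecture
  have hiff : ∀ (ℓ : ℕ) [Fact ℓ.Prime] (r : ∀ i, Γ →* Matrix (Fin (N i)) (Fin (N i)) ℚ_[ℓ]),
      MumfordTateConjecture G r ↔ R932.FP.MTc G r := by
    intro ℓ _ r
    refine forall_congr' fun x => forall_congr' fun hx => iff_congr ?_ ?_
    · refine forall_congr' fun f => ?_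
      have h1 : ∀ y : ∀ i, Matrix (Fin (N i)) (Fin (N i)) (AlgebraicClosure ℚ_[ℓ]),
          value f y = R932.GR.evf y f := by
        intro y
        show MvPolynomial.aeval _ f = MvPolynomial.eval _ f
        rw [MvPolynomial.aeval_def]
        rfl
      rw [h1]
      refine imp_congr (exists_congr fun Δ => and_congr Iff.rfl (forall_congr' fun σ =>
        forall_congr' fun _ => ?_)) Iff.rfl
      rw [h1]
      rfl
    · exact ⟨fun h f hf => h.2 f hf, fun h => ⟨hx, fun f hf => h f hf⟩⟩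
  obtain ⟨hG1, hG2⟩ := hG
  have hmain := R932.FP.fp_main (K := K) (P := P) (kd := kd) (w := w) hS hs J hfit
    (fun i => (hJ i).1) hwJ κ (fun ℓ _ v hv hvℓ σ hσ => hκ ℓ v hv hvℓ σ hσ) ρ
    (fun i ℓ _ => (hρ i ℓ).1) (fun i ℓ _ g => (hρ i ℓ).2.1 g)
    (fun i ℓ _ v hv hvℓ σ hσ => (hρ i ℓ).2.2 v hv hvℓ σ hσ) G
    (fun x hx h => hG1 x ⟨hx, fun f hf => h f hf⟩)
    (fun ℓ _ => by
      obtain ⟨Δ, hΔ, h⟩ := hG2 ℓ
      exact ⟨Δ, hΔ, fun σ hσ f hf => (h σ hσ).2 f hf⟩) ℓ₀ hal hcond htwo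
  refine ⟨fun x => ⟨hG1 x, fun hx => ⟨hne x hx, fun f hf => hmain.1 x hx f hf⟩⟩,
    (hiff ℓ₀ _).2 hmain.2.1, ?_, ?_⟩
  · refine Y142.ZI.DensityZero.mono hmain.2.2.1 ?_
    rintro ℓ ⟨hp, hno⟩
    exact ⟨hp, fun h => hno ((hiff ℓ _).2 h)⟩
  · intro ℓ _ hss hsc
    exact (hiff ℓ _).2 (hmain.2.2.2 ℓ hss hsc)

end

end Pool.Agent.Results.MP_de8692_ag.FrobeniusPolynomialsAtOnePrime
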