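import Pool.Agent.R920.LG.Main

/-!
# The algebras generated by the Galois group and by the motivic Galois group

Let `M` be a motive over the finitely generated field `k`, let `G` be the group of the
`ℚ_ℓ`-rational points of the motivic Galois group of `M` (or of the Mumford-Tate group of `M`, for
absolute Hodge cycles), and let `Γ` be the image of the Galois group of a finite extension `k'` of
`k` such that the `ℓ`-adic monodromy group of `M` over `k'` is connected (and `Γ ≤ G`). Let `a n`
and `m n` be the dimensions of the algebras generated by `Γ` and by `G` on the `n`-th tensor power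
of `M ⊕ 1`. For arbitrary groups of matrices `Γ ≤ G` over an arbitrary field, with `Γ` irreducible,
we show that `m n / a n` converges to the index in `G` of the Zariski closure of `Γ`. So the
motivic Mumford-Tate conjecture holds for `M` and `ℓ` if and only if `m n / a n` is bounded; the
limit is then the number of the components of the motivic Galois group, and `m n ≤ N a n`.

If the algebras are different for the `d`-th tensor power then
`m n ≥ (2 - 2 d (a 1) / (n + 1)) a n` for all `n`, and if `G` is irreducible (as the Mumford-Tate
group) even `(n + 1) a n ≤ 3 d (a 1) m n`. So for a connected group the conjecture is true or the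
proportion `a n / m n` is at most `C / n`.
-/

open Matrix

namespace Pool.Agent.Results.MP_de8692_ag.GroupAlgebraLaw

open Pool.Agent.R920.LG
open Pool.Agent.Y133.Half (HasIndex)

/-- **The law for the algebras generated by two groups on the tensor powers.** -/
theorem result {K ι : Type*} [Field K] [Fintype ι] [DecidableEq ι] (Γ G : Subgroup (GL ι K))
    (h : Γ ≤ G) (hΓ : IsIrreducible (Γ : Set (GL ι K))) (a m : ℕ → ℕ)
    (ha : ∀ n, a n = algDim Γ n) (hm : ∀ n, m n = algDim G n) :
    HasIndex m a (ENat.card (G ⧸ (zclosure Γ).subgroupOf G)) ∧
      (∀ r : ℕ, ENat.card (G ⧸ (zclosure Γ).subgroupOf G) = r → ∀ n, m n ≤ r * a n) ∧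
      (G ≤ zclosure Γ ↔ ∀ n, a n = m n) ∧
      (∀ d n, a d = m d ∨ ((2 : ℝ) - 2 * d * a 1 / (n + 1)) * a n ≤ m n) ∧
      (IsIrreducible (G : Set (GL ι K)) →
        ∀ d n, a d = m d ∨ (n + 1) * a n ≤ 3 * d * a 1 * m n) :=
  law h hΓ a m ha hm

end Pool.Agent.Results.MP_de8692_ag.GroupAlgebraLaw
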