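import Pool.Agent.R918.Ell3

set_option autoImplicit false

/-!
# The Mumford-Tate conjecture for motives of middle exterior type

Let `k` be a finitely generated field of characteristic zero and let `M i` be finitely many motives over
`k` (of André, or for absolute Hodge cycles), pure of the same weight `w`; let `V i = ℚ_ℓ ^ (n i)` be
their `ℓ`-adic realizations, with the actions `ρ i` of the Galois group `Γ` of `k`, and let `M` be the
direct sum of the `M i`. Let `𝔤` be the Lie algebra of the `ℓ`-adic motivic Galois group of `M`; it acts on
the sum of the `V i`. It is reductive, it is determined by the tensors which it kills, and these are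
Tate tensors, since motivated classes are Tate classes (these properties are collected in `IsMotivic`).

The Mumford-Tate conjecture for `M` says that the representation of `Γ` is semisimple, and that the
Tate tensors (in any number of variables, in `V` and its dual space, fixed by a subgroup of finite
index of `Γ`) are exactly the tensors killed by `𝔤`; equivalently, the identity component of the
`ℓ`-adic monodromy group is the identity component of the motivic Galois group.

Suppose that `M` is of middle exterior type (`MiddleType`): over the complex numbers (for one embedding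
`ℚ_ℓ → ℂ`), the semisimple part of `𝔤` is a sum `sl(W_1) + … + sl(W_k)` of special linear Lie algebras
of the same even rank `dim W_σ = 2 m`, which acts on the realization of `M` by a sum of copies of
`Λ^m W_1 ⊗ … ⊗ Λ^m W_k`, and `𝔤` consists of this semisimple part, and the scalars if `w ≠ 0`.

**Theorem.** The Mumford-Tate conjecture holds for such a motive `M` (and so for all motives in the
tensor category generated by `M`) if and only if the realization of `M` is semisimple and the Tate
conjecture (with motivated cycles) holds for the endomorphisms of `M` (`EndTate`: the endomorphisms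
which commute with a subgroup of finite index of `Γ` commute with `𝔤`).

So all the Tate classes on all the powers are reduced to those on `M ⊗ M^∨`: no information about
inertia groups, about Frobenius elements or about Hodge-Tate weights is needed. (For `w ≠ 0` the existence
of one Frobenius element which acts purely of weight `w` is used, in order to see the scalars.)

For the motives `h^1(A)` of abelian varieties the two conditions are the theorem of Faltings, and the
Mumford-Tate conjecture follows unconditionally for all abelian varieties of middle exterior type: for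
odd `m` there are abelian varieties with endomorphism ring `ℤ` of the dimensions `binom(2m, m) / 2`
(the exceptional dimensions in the theorem of Pink; the Hodge group is a form of the image of `SL(2m)`
in `Sp(Λ^m)`), and, for odd `k`, of the dimensions `binom(2m, m)^k / 2` (over totally real fields of
degree `k`; for `m = 1` these are Mumford's). The theorem is about all weights: for instance, for even
`m` the middle exterior power of the standard representation of a special linear group over a totally
real field is orthogonal and occurs in motives of even weight.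

## Proof

Let `L` be the Lie algebra of the endomorphisms of `V` which kill all Tate tensors. It is contained in
`𝔤`. By the theorem on bicommutants and the condition on the endomorphisms, `L` generates the same
associative algebra as `𝔤`, and for `w ≠ 0` it contains the scalars (since one element of `Γ` acts
purely of weight `w`). So the intersection `𝔥` of `L ⊗ ℂ` with the semisimple part `𝔰` of `𝔤 ⊗ ℂ`
generates an algebra which contains `𝔰`. Now `𝔥 = 𝔰` follows from `Pool.Agent.R918.MidHyp.all_mem`,
whose proof does not use the classification of semisimple Lie algebras or the theorem of Dynkin on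
their irreducible subalgebras:

1. The radical of `𝔥` acts by scalars on a nonzero `𝔥`-stable subspace, which is stable under `𝔰`; only
   zero can act as a scalar on such a subspace. So `𝔥` is semisimple.
2. Let `U = Λ(W_1 + … + W_k) ⊗ (multiplicities)` be the Fock space. The operators
   `X ↦ ∑ a_i X b_i` and `X ↦ ∑ b_i X a_i` (sums over the creation and annihilation operators of one
   colour) and the particle numbers define an action of `sl(2)` on `End U`, which commutes with the
   adjoint action of `𝔥`; the zero weight space corresponds to the middle exterior power. As `sl(2)`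
   acts injectively towards the middle, the commutant of `𝔥` in the operators which preserve the
   particle numbers is the commutant of `𝔰` on all of `U`.
3. By the theorem of Weyl on complete reducibility it follows that all subspaces of `U` which are stable
   under `𝔥` and the particle numbers are stable under `𝔰`. So `𝔥` is irreducible on all exterior
   powers, for each colour.
4. A combinatorial argument on the weights shows that such a semisimple Lie algebra contains the
   elementary matrices in a suitable basis, as `2m` is even (`Pool.Agent.R918.exists_units`).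
-/

open Module TensorProduct

noncomputable section

namespace Pool.Agent.Results.MP_de8692_ag.MiddleExteriorMotives

open Pool.Agent.Y114.TF Pool.Agent.Y114.RM Pool.Agent.H204R3.GP Pool.Agent.R913.Adj
  Pool.Agent.R918.Ell

/-! ### Representations and the motivic Lie algebra -/

section tate

variable {k V Γ : Type} [Field k] [AddCommGroup V] [Module k V] [Group Γ]
  (ρ : Representation k Γ V) (𝔤 : Submodule k (End k V))

/-- The representation is semisimple under all subgroups of finite index, and the Tate tensors are the
tensors killed by `𝔤`. -/
def IsFull : Prop :=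
  FiniteIndexSemisimple ρ ∧
    ∀ (m : ℕ) (φ : Tensor k V m), TateTensor ρ φ ↔ ∀ X ∈ 𝔤, KillsTensor X φ

/-- An endomorphism which commutes with a subgroup of finite index of `Γ` commutes with `𝔤`. -/
def IsEndTate : Prop :=
  ∀ P : End k V, (∃ Δ : Subgroup Γ, Δ.FiniteIndex ∧ ∀ γ ∈ Δ, P * ρ γ = ρ γ * P) →
    ∀ X ∈ 𝔤, X * P = P * X

end tate

section props

variable (Γ : Type) [Group Γ] {ι : Type} (n : ι → ℕ) (ℓ : ℕ) [Fact ℓ.Prime]

/-- Representations of `Γ` on the spaces `ℚ_ℓ ^ (n i)`. -/
abbrev Reps : Type := ∀ i, Representation ℚ_[ℓ] Γ (Fin (n i) → ℚ_[ℓ])

/-- Spaces of endomorphisms of the direct sum of the spaces `ℚ_ℓ ^ (n i)`. -/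
abbrev EndSpace : Type := Submodule ℚ_[ℓ] (End ℚ_[ℓ] (∀ i, Fin (n i) → ℚ_[ℓ]))

variable {Γ n ℓ} (ρ : Reps Γ n ℓ) (𝔤 : EndSpace n ℓ)

/-- The representations are continuous. -/
def Conts [TopologicalSpace Γ] : Prop := ∀ i, Continuous fun g => LinearMap.toMatrix' (ρ i g)

/-- Some element of `Γ` acts purely of the weight `w` on all the representations: its characteristic
polynomials are rational, with all roots of absolute value `q ^ (w / 2)` for some `q > 1`. -/
def Pure (w : ℤ) : Prop := ∃ γ : Γ, ActsPurely ρ (fun _ => w) γ

variable [Fintype ι] [DecidableEq ι]

/-- `𝔤` has the properties of the Lie algebra of the motivic Galois group (see `IsMotivic`). -/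
def Motivic : Prop := IsMotivic ρ 𝔤

/-- The direct sum is semisimple as a representation of every subgroup of finite index. -/
def Semisimple : Prop := FiniteIndexSemisimple (sumRep ρ)

/-- The Mumford-Tate conjecture for the direct sum (see `IsFull`). -/
def MumfordTate : Prop := IsFull (sumRep ρ) 𝔤

/-- The Tate conjecture for the endomorphisms of the direct sum (see `IsEndTate`). -/
def EndTate : Prop := IsEndTate (sumRep ρ) 𝔤

end props

/-! ### The middle exterior type -/

section types

variable {U : Type} [AddCommGroup U] [Module ℂ U] {k N : ℕ}

/-- The canonical anticommutation relations for the creation operators `a σ i` and the annihilation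
operators `b σ i` on the vector space `U`, where `σ < k` is the colour and `i < N`. -/
def Car (a b : Fin k → Fin N → End ℂ U) : Prop :=
  (∀ σ i τ j, a σ i * a τ j = -(a τ j * a σ i)) ∧
  (∀ σ i τ j, b σ i * b τ j = -(b τ j * b σ i)) ∧
  ∀ σ i τ j, a σ i * b τ j + b τ j * a σ i = if σ = τ ∧ i = j then 1 else 0

/-- The action of the matrix `x` in `gl(N)` for the colour `σ`. For `x = 1` it is the number of
particles of the colour `σ`. -/
def act (a b : Fin k → Fin N → End ℂ U) (σ : Fin k) (x : Matrix (Fin N) (Fin N) ℂ) : End ℂ U :=
  ∑ i, ∑ j, x i j • (a σ i * b σ j)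

/-- The scalars if the weight `w` is not zero, and nothing if it is zero. -/
def scalars (H : Type) [AddCommGroup H] [Module ℂ H] (w : ℤ) : Submodule ℂ (End ℂ H) :=
  if w = 0 then ⊥ else Submodule.span ℂ {1}

/-- **Middle exterior type.** The complex vector space `H` is identified (by the injective map `Q`, with
the left inverse `P`) with the space of the vectors with exactly `m` particles of each of the `k`
colours in a finite dimensional representation `U` of the canonical anticommutation relations with `2m`
creation operators for each colour, that is, with a sum of copies of the tensor product of the `m`-th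
exterior powers of `k` vector spaces of dimension `2m`, and the Lie algebra `𝔩` is the sum of the `k` Lie
algebras `sl(2m)`, and the scalars if the weight `w` is not zero. -/
def IsMiddle {H : Type} [AddCommGroup H] [Module ℂ H] (𝔩 : Submodule ℂ (End ℂ H)) (w : ℤ) : Prop :=
  ∃ (U : Type) (_ : AddCommGroup U) (_ : Module ℂ U) (_ : FiniteDimensional ℂ U) (k m : ℕ)
    (a b : Fin k → Fin (2 * m) → End ℂ U) (P : U →ₗ[ℂ] H) (Q : H →ₗ[ℂ] U),
    Car a b ∧ (∀ x, P (Q x) = x) ∧
    (∀ v, (∃ x, v = Q x) ↔ ∀ σ, act a b σ 1 v = (m : ℂ) • v) ∧
    𝔩 = Submodule.span ℂ {Y | ∃ σ x, Matrix.trace x = 0 ∧ Y = P ∘ₗ act a b σ x ∘ₗ Q} ⊔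
      scalars H w

variable {ι : Type} {n : ι → ℕ} {ℓ : ℕ} [Fact ℓ.Prime] [Algebra ℚ_[ℓ] ℂ]

/-- The complexification of the direct sum of the `ℚ_ℓ ^ (n i)`. -/
abbrev VC (n : ι → ℕ) (ℓ : ℕ) [Fact ℓ.Prime] [Algebra ℚ_[ℓ] ℂ] : Type :=
  ℂ ⊗[ℚ_[ℓ]] (∀ i, Fin (n i) → ℚ_[ℓ])

/-- The complexification `𝔤 ⊗ ℂ`, which acts on the complexification of the direct sum. -/
def lieC (𝔤 : EndSpace n ℓ) : Submodule ℂ (End ℂ (VC n ℓ)) :=
  Submodule.span ℂ {Y | ∃ X ∈ 𝔤, Y = X.baseChange ℂ}

/-- The motivic Lie algebra is of middle exterior type, over the complex numbers. -/
def MiddleType (w : ℤ) (𝔤 : EndSpace n ℓ) : Prop := IsMiddle (lieC 𝔤) w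

end types

/-- **Theorem.** Let `M` be a direct sum of motives of weight `w`, of middle exterior type. The
Mumford-Tate conjecture holds for `M` if and only if the realization of `M` is semisimple and the Tate
conjecture holds for the endomorphisms of `M`. -/
theorem result {Γ : Type} [Group Γ] [TopologicalSpace Γ] [IsTopologicalGroup Γ] [CompactSpace Γ]
    {ι : Type} [Fintype ι] [DecidableEq ι] {n : ι → ℕ} {ℓ : ℕ} [Fact ℓ.Prime] [Algebra ℚ_[ℓ] ℂ]
    (ρ : Reps Γ n ℓ) (hρ : Conts ρ) (w : ℤ) (hw : w ≠ 0 → Pure ρ w)
    (𝔤 : EndSpace n ℓ) (h𝔤 : Motivic ρ 𝔤) (ht : MiddleType w 𝔤) :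
    MumfordTate ρ 𝔤 ↔ Semisimple ρ ∧ EndTate ρ 𝔤 := by
  constructor
  · rintro ⟨hss, h⟩
    exact ⟨hss, endTate_of_tate (sumRep ρ) h⟩
  · rintro ⟨hss, hE⟩
    obtain ⟨U, i1, i2, i3, k, m, a, b, P, Q, ⟨h1, h2, h3⟩, hPQ, hQ, hl⟩ := ht
    refine ⟨hss, tate_of_rig ρ hρ h𝔤 hss hE
      (rig_mid (car_opp h1 h2 h3) (midSet_of rfl hPQ hQ)) w hw ?_⟩
    rw [← slC_eq]
    refine Eq.trans ?_ hl
    unfold bcS lieC
    congr 1
    ext Y
    constructor
    · rintro ⟨X, hX, rfl⟩
      exact ⟨X, hX, rfl⟩
    · rintro ⟨X, hX, rfl⟩
      exact ⟨X, hX, rfl⟩

end Pool.Agent.Results.MP_de8692_ag.MiddleExteriorMotives
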